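import Pool.Agent.Q83.FF.Stm

set_option autoImplicit false

namespace Pool.Agent.Q211.FF

open Pool.Agent.Q83.FF Finset

theorem abel_aux : ∀ (d : ℕ) (y u : Fin (d + 1) → ℝ), Monotone y →
    (∀ k : ℕ, 0 ≤ ∑ i ∈ univ.filter (fun i : Fin (d + 1) => k ≤ i.val), u i) →
    y 0 * ∑ i, u i ≤ ∑ i, y i * u i := by
  intro d
  induction d with
  | zero =>
    intro y u _ _
    simp
  | succ d ih =>
    intro y u hy hu
    have hk : ∀ k : ℕ, ∑ i ∈ univ.filter (fun i : Fin (d + 1) => k ≤ i.val), u i.succ =
        ∑ i ∈ univ.filter (fun i : Fin (d + 2) => k + 1 ≤ i.val), u i := by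
      intro k
      have e := Fin.sum_univ_succ (fun i : Fin (d + 2) => if k + 1 ≤ i.val then u i else 0)
      rw [sum_filter, sum_filter, e]
      simp
    have h1 := ih (fun i => y i.succ) (fun i => u i.succ)
      (fun i j hij => hy (Fin.succ_le_succ_iff.2 hij)) (fun k => by rw [hk]; exact hu (k + 1))
    have h2 : 0 ≤ ∑ i : Fin (d + 1), u i.succ := by
      have h3 := hk 0
      simp only [Nat.zero_le, filter_true] at h3
      rw [h3]
      exact hu 1
    have h4 : y 0 ≤ y (Fin.succ 0) := hy (Fin.zero_le _)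
    have h5 := mul_le_mul_of_nonneg_right h4 h2
    rw [Fin.sum_univ_succ, Fin.sum_univ_succ (f := fun i => y i * u i), mul_add]
    linarith

/-- FF-ABEL -/
theorem t_abel : S_abel := by
  intro d y x z hy hs ht
  cases d with
  | zero => simp
  | succ d =>
    have h1 := abel_aux d y (fun i => z i - x i) hy (fun k => by
      rw [sum_sub_distrib]
      linarith [ht k])
    rw [sum_sub_distrib, ← hs, sub_self, mul_zero] at h1
    have h2 : ∑ i, y i * (z i - x i) = ∑ i, y i * z i - ∑ i, y i * x i := by
      rw [← sum_sub_distrib]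
      exact sum_congr rfl fun i _ => by ring
    rw [h2] at h1
    linarith

end Pool.Agent.Q211.FF
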