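import Pool.Agent.Q83.FF.Stm

set_option autoImplicit false

namespace Pool.Agent.Q211.FF

open Pool.Agent.Q83.FF

/-- FF-ALG -/
theorem t_alg : S_alg := by
  intro l x y m hl hl1 hm h
  obtain ⟨n, rfl⟩ : ∃ n, m = n + 3 := ⟨m - 3, by omega⟩
  set p := Real.sqrt l with hp
  set q := Real.sqrt (1 - l) with hq
  have hp0 : 0 < p := Real.sqrt_pos.2 hl
  have hq0 : 0 < q := Real.sqrt_pos.2 (by linarith)
  have hp2 : p ^ 2 = l := Real.sq_sqrt hl.le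
  have hq2 : q ^ 2 = 1 - l := Real.sq_sqrt (by linarith)
  have hle : ∀ t : ℝ, 0 < t → t < 1 → t ^ (n + 2) ≤ t ^ 2 := fun t h0 h1 =>
    pow_le_pow_of_le_one h0.le h1.le (by omega)
  have hp4 : (p ^ (n + 2)) ^ 2 ≤ l ^ 2 := by
    rw [← pow_mul, mul_comm, pow_mul, hp2]
    exact hle l hl hl1
  have hq4 : (q ^ (n + 2)) ^ 2 ≤ (1 - l) ^ 2 := by
    rw [← pow_mul, mul_comm, pow_mul, hq2]
    exact hle (1 - l) (by linarith) (by linarith)
  have hcs : (p ^ (n + 3) * x + q ^ (n + 3) * y) ^ 2 ≤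
      ((p ^ (n + 2)) ^ 2 + (q ^ (n + 2)) ^ 2) * ((p * x) ^ 2 + (q * y) ^ 2) := by
    have h1 : p ^ (n + 3) * x + q ^ (n + 3) * y =
        p ^ (n + 2) * (p * x) + q ^ (n + 2) * (q * y) := by ring
    rw [h1]
    nlinarith [sq_nonneg (p ^ (n + 2) * (q * y) - q ^ (n + 2) * (p * x))]
  have hS : (p * x) ^ 2 + (q * y) ^ 2 = l * x ^ 2 + (1 - l) * y ^ 2 := by
    rw [mul_pow, mul_pow, hp2, hq2]
  rw [h, hS] at hcs
  set Z := l * x ^ 2 + (1 - l) * y ^ 2 with hZ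
  have hx2 : 0 ≤ l * x ^ 2 := by positivity
  have hy2 : 0 ≤ (1 - l) * y ^ 2 := mul_nonneg (by linarith) (sq_nonneg y)
  have hZ0 : Z ≤ 0 := by
    by_contra hcon
    push Not at hcon
    have h3 : (p ^ (n + 2)) ^ 2 + (q ^ (n + 2)) ^ 2 ≤ 1 - 2 * (l * (1 - l)) := by nlinarith
    have h4 : ((p ^ (n + 2)) ^ 2 + (q ^ (n + 2)) ^ 2) * Z ≤ (1 - 2 * (l * (1 - l))) * Z :=
      mul_le_mul_of_nonneg_right h3 hcon.le
    have h5 : 0 < l * (1 - l) * Z := mul_pos (mul_pos hl (by linarith)) hcon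
    nlinarith
  have hx : l * x ^ 2 = 0 := by linarith
  have hy : (1 - l) * y ^ 2 = 0 := by linarith
  constructor
  · rcases mul_eq_zero.1 hx with h1 | h1
    · exact absurd h1 hl.ne'
    · exact pow_eq_zero_iff (two_ne_zero) |>.1 h1
  · rcases mul_eq_zero.1 hy with h1 | h1
    · exact absurd h1 (by linarith)
    · exact pow_eq_zero_iff (two_ne_zero) |>.1 h1

end Pool.Agent.Q211.FF
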