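import Pool.Agent.Q83.FF.Stm

set_option autoImplicit false

namespace Pool.Agent.Q211.FF

open Pool.Agent.Q83.FF Polynomial Filter Topology

/-- FF-GROWTH -/
theorem t_growth : S_growth := by
  intro f M K h
  by_contra hcon
  push Not at hcon
  have hmon : ((X + C 1 : ℝ[X]) ^ M).Monic := (monic_X_add_C 1).pow M
  have hdeg : ((X + C 1 : ℝ[X]) ^ M).natDegree = M := by
    rw [natDegree_pow, natDegree_X_add_C, mul_one]
  have hlt : ((X + C 1 : ℝ[X]) ^ M).degree < f.degree := by
    refine degree_lt_degree ?_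
    rw [hdeg]
    exact hcon
  have h1 := abs_div_tendsto_atTop_atTop_of_degree_gt f ((X + C 1 : ℝ[X]) ^ M) hlt hmon.ne_zero
  obtain ⟨t, h2, h3⟩ := ((h1.eventually_gt_atTop K).and (eventually_ge_atTop (0 : ℝ))).exists
  have h4 : eval t ((X + C 1 : ℝ[X]) ^ M) = (1 + |t|) ^ M := by
    rw [eval_pow, eval_add, eval_X, eval_C, abs_of_nonneg h3, add_comm]
  have h5 : 0 < (1 + |t|) ^ M := by positivity
  rw [h4, abs_div, abs_of_pos h5, lt_div_iff₀ h5] at h2
  exact absurd (h t) (not_le.2 h2)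

end Pool.Agent.Q211.FF
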