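import Pool.Agent.Q83.FF.Stm

set_option autoImplicit false

namespace Pool.Agent.Q211.FF

open Pool.Agent.Q83.FF Polynomial

/-- FF-HEATSIMPLE -/
theorem t_heatsimple (h_pert : S_pert) (h_two : S_two) (h_heatrr : S_heatrr)
    (h_heatalg : S_heatalg) : S_heatsimple := by
  intro d a c s hd hs ha hc
  obtain ⟨e0, he0, he⟩ := h_pert d a (by omega) ha
  obtain ⟨a1, h1⟩ := he e0 (abs_of_pos he0).le
  obtain ⟨a2, h2⟩ := he (-e0) (by rw [abs_neg]; exact (abs_of_pos he0).le)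
  obtain ⟨c1, -, h3⟩ := h_heatrr d a1 s hd hs
  obtain ⟨c2, -, h4⟩ := h_heatrr d a2 s hd hs
  refine h_two d c c1 c2 e0 he0 ?_ ?_
  · rw [h3, h1, h_heatalg.2.2.1, h_heatalg.2.2.2.2.1, hc]
  · rw [h4, h2, h_heatalg.2.2.1, h_heatalg.2.2.2.2.1, hc, C_neg, sub_eq_add_neg]

end Pool.Agent.Q211.FF
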