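import Pool.Agent.Q83.FF.Stm

set_option autoImplicit false

namespace Pool.Agent.Q211.FF

open Pool.Agent.Q83.FF

theorem exists_avoid (F : Finset ℝ) (x0 e : ℝ) (he : 0 < e) : ∃ x : ℝ, |x - x0| < e ∧ x ∉ F := by
  have h1 : (Set.Ioo (x0 - e) (x0 + e)).Infinite := Set.Ioo_infinite (by linarith)
  obtain ⟨x, h2, h3⟩ := h1.exists_notMem_finset F
  refine ⟨x, ?_, h3⟩
  rw [abs_lt]
  exact ⟨by linarith [h2.1], by linarith [h2.2]⟩

/-- FF-LINES -/
theorem t_lines : S_lines := by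
  classical
  intro T hT x0 y0 e he
  obtain ⟨x, hx, hx2⟩ := exists_avoid (T.image fun z => z.2.2 / z.1) x0 e he
  obtain ⟨y, hy, hy2⟩ := exists_avoid (T.image fun z => (z.2.2 - z.1 * x) / z.2.1) y0 e he
  refine ⟨x, y, hx, hy, fun z hz heq => ?_⟩
  by_cases h : z.2.1 = 0
  · have h1 : z.1 ≠ 0 := (hT z hz).resolve_right fun h2 => h2 h
    apply hx2
    refine Finset.mem_image.2 ⟨z, hz, ?_⟩
    rw [h, zero_mul, add_zero] at heq
    rw [← heq]
    field_simp
  · apply hy2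
    refine Finset.mem_image.2 ⟨z, hz, ?_⟩
    rw [← heq, add_sub_cancel_left]
    field_simp

end Pool.Agent.Q211.FF
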