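import Pool.Agent.Q83.FF.Stm

set_option autoImplicit false

namespace Pool.Agent.Q211.FF

open Pool.Agent.Q83.FF

/-- FF-OM1 -/
theorem t_om1 (h_rr : S_rr) (h_uniq : S_uniq) : S_om1 := by
  intro d a b
  obtain ⟨c, hc, hP⟩ := h_rr d a b
  obtain ⟨-, h2, h3⟩ := h_uniq.2.2.2.2.1 d _ c hc hP
  refine ⟨h2, h3, fun c' hc' hP' => ?_⟩
  exact ((h_uniq.2.2.2.2.1 d _ c' hc' hP').1).symm

end Pool.Agent.Q211.FF
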