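import Pool.Agent.Q83.FF.Stm

set_option autoImplicit false

namespace Pool.Agent.Q211.FF

open Pool.Agent.Q83.FF Polynomial Filter Topology Finset

theorem cont_prod {d : ℕ} (s : Finset (Fin d)) :
    ∀ j : ℕ, Continuous fun a : Fin d → ℝ => (∏ i ∈ s, (X - C (a i))).coeff j := by
  classical
  induction s using Finset.induction_on with
  | empty =>
    intro j
    simp only [prod_empty]
    exact continuous_const
  | insert i s hi ih =>
    intro j
    have h : ∀ a : Fin d → ℝ, (∏ k ∈ insert i s, (X - C (a k))).coeff j =
        (X * ∏ k ∈ s, (X - C (a k))).coeff j - a i * (∏ k ∈ s, (X - C (a k))).coeff j := by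
      intro a
      rw [prod_insert hi, sub_mul, coeff_sub, coeff_C_mul]
    simp only [h]
    refine Continuous.sub ?_ ((continuous_apply i).mul (ih j))
    cases j with
    | zero =>
      simp only [mul_coeff_zero, coeff_X_zero, zero_mul]
      exact continuous_const
    | succ j =>
      simp only [coeff_X_mul]
      exact ih j

theorem cont_P (d j : ℕ) : Continuous fun a : Fin d → ℝ => (P a).coeff j := cont_prod univ j

theorem cont_conv (d j : ℕ) :
    Continuous fun w : (Fin d → ℝ) × (Fin d → ℝ) => (conv d (P w.1) (P w.2)).coeff j := by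
  unfold conv
  simp only [finsetSum_coeff, coeff_C_mul]
  refine continuous_finsetSum _ fun i _ => Continuous.mul (Continuous.mul continuous_const ?_)
    continuous_const
  refine continuous_finsetSum _ fun jk _ => ?_
  refine Continuous.mul (Continuous.mul continuous_const ?_) ?_
  · exact continuous_const.mul ((cont_P d _).comp continuous_fst)
  · exact continuous_const.mul ((cont_P d _).comp continuous_snd)

/-- FF-OM2 -/
theorem t_om2 (h_om1 : S_om1) (h_cont : S_cont) : S_om2 := by
  intro d
  rw [continuous_iff_continuousAt]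
  intro w0
  refine h_cont _ (𝓝 w0) d (fun w => Om w.1 w.2) (Om w0.1 w0.2)
    (Eventually.of_forall fun w => (h_om1 d w.1 w.2).1) (h_om1 d w0.1 w0.2).1 fun j => ?_
  have h : ∀ w : (Fin d → ℝ) × (Fin d → ℝ), P (Om w.1 w.2) = conv d (P w.1) (P w.2) :=
    fun w => (h_om1 d w.1 w.2).2.1
  simp only [h]
  exact (cont_conv d j).continuousAt

end Pool.Agent.Q211.FF
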