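import Pool.Agent.Q83.FF.Stm

set_option autoImplicit false

namespace Pool.Agent.Q211.FF

open Pool.Agent.Q83.FF Polynomial Filter Topology Finset

theorem natDegree_P {d : ℕ} (a : Fin d → ℝ) : (P a).natDegree = d := by
  unfold P
  rw [natDegree_prod_of_monic _ _ fun i _ => monic_X_sub_C _]
  simp

theorem eval_P_self {d : ℕ} (a : Fin d → ℝ) (i : Fin d) : (P a).eval (a i) = 0 := by
  unfold P
  rw [eval_prod]
  exact prod_eq_zero (mem_univ i) (by simp)

theorem eval_P {d : ℕ} (a : Fin d → ℝ) (i : Fin d) (x : ℝ) :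
    (P a).eval x = (x - a i) * ∏ j ∈ univ.erase i, (x - a j) := by
  unfold P
  rw [eval_prod, ← mul_prod_erase univ _ (mem_univ i)]
  simp

/-- FF-ROOTDERIV -/
theorem t_rootderiv : S_rootderiv := by
  intro d T s0 c G hs0 hc hinj hG hder i
  rw [hasDerivWithinAt_iff_tendsto_slope]
  have hci : Tendsto (fun s => c s i) (𝓝[T \ {s0}] s0) (𝓝 (c s0 i)) := by
    have h1 : Tendsto (fun s => c s) (𝓝[T \ {s0}] s0) (𝓝 (c s0)) :=
      hc.tendsto.mono_left (nhdsWithin_mono _ Set.sdiff_subset)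
    exact (tendsto_pi_nhds.1 h1) i
  have hPi : Tendsto (fun s => ∏ j ∈ univ.erase i, (c s i - c s0 j)) (𝓝[T \ {s0}] s0)
      (𝓝 (∏ j ∈ univ.erase i, (c s0 i - c s0 j))) :=
    tendsto_finsetProd _ fun j _ => hci.sub tendsto_const_nhds
  have hne : ∏ j ∈ univ.erase i, (c s0 i - c s0 j) ≠ 0 := by
    rw [prod_ne_zero_iff]
    intro j hj h
    exact (mem_erase.1 hj).1 (hinj (sub_eq_zero.1 h)).symm
  have hsl : ∀ j ∈ range (d + 1), Tendsto (fun s => slope (fun s => (P (c s)).coeff j) s0 s *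
      c s i ^ j) (𝓝[T \ {s0}] s0) (𝓝 (G.coeff j * c s0 i ^ j)) := by
    intro j hj
    exact (hasDerivWithinAt_iff_tendsto_slope.1 (hder j (Nat.lt_succ_iff.1 (mem_range.1 hj)))).mul
      (hci.pow j)
  have hsum : Tendsto (fun s => ∑ j ∈ range (d + 1), slope (fun s => (P (c s)).coeff j) s0 s *
      c s i ^ j) (𝓝[T \ {s0}] s0) (𝓝 (G.eval (c s0 i))) := by
    rw [eval_eq_sum_range' (Nat.lt_succ_of_le hG)]
    exact tendsto_finsetSum _ hsl
  have hlim := hsum.neg.div hPi hne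
  refine hlim.congr' ?_
  have hev : ∀ᶠ s in 𝓝[T \ {s0}] s0, ∏ j ∈ univ.erase i, (c s i - c s0 j) ≠ 0 :=
    hPi.eventually_ne hne
  have hmem : ∀ᶠ s in 𝓝[T \ {s0}] s0, s ∈ T \ {s0} := self_mem_nhdsWithin
  filter_upwards [hev, hmem] with s h1 h2
  have h3 : s - s0 ≠ 0 := sub_ne_zero.2 h2.2
  have h4 : ∑ j ∈ range (d + 1), (P (c s)).coeff j * c s i ^ j = 0 := by
    rw [← eval_eq_sum_range' (by rw [natDegree_P]; omega)]
    exact eval_P_self (c s) i
  have h5 : ∑ j ∈ range (d + 1), (P (c s0)).coeff j * c s i ^ j =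
      (c s i - c s0 i) * ∏ j ∈ univ.erase i, (c s i - c s0 j) := by
    rw [← eval_eq_sum_range' (by rw [natDegree_P]; omega)]
    exact eval_P (c s0) i (c s i)
  have h6 : ∑ j ∈ range (d + 1), slope (fun s => (P (c s)).coeff j) s0 s * c s i ^ j =
      (s - s0)⁻¹ * (-((c s i - c s0 i) * ∏ j ∈ univ.erase i, (c s i - c s0 j))) := by
    rw [← h5, ← zero_sub, ← h4, ← sum_sub_distrib, mul_sum]
    refine sum_congr rfl fun j _ => ?_
    rw [slope_def_field]
    field_simp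
  simp only [Pi.div_apply]
  rw [h6, slope_def_field]
  field_simp

end Pool.Agent.Q211.FF
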