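import Pool.Agent.Q83.FF.Stm

set_option autoImplicit false

namespace Pool.Agent.Q211.FF

open Pool.Agent.Q83.FF Polynomial

/-- FF-SIMPLE -/
theorem t_simple (h_pert : S_pert) (h_two : S_two) (h_rr : S_rr) (h_convbasic : S_convbasic)
    (h_uniq : S_uniq) : S_simple := by
  intro d a b c ha hc
  rcases Nat.eq_zero_or_pos d with rfl | hd
  · intro i
    exact Fin.elim0 i
  · obtain ⟨e0, he0, he⟩ := h_pert d a hd ha
    obtain ⟨a1, h1⟩ := he e0 (abs_of_pos he0).le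
    obtain ⟨a2, h2⟩ := he (-e0) (by rw [abs_neg]; exact (abs_of_pos he0).le)
    obtain ⟨c1, -, h3⟩ := h_rr d a1 b
    obtain ⟨c2, -, h4⟩ := h_rr d a2 b
    obtain ⟨hm, hn⟩ := h_uniq.2.2.1 d b
    have h5 := h_convbasic.2.2.2.1 d (P a) (P b) e0 hm hn
    have h6 := h_convbasic.2.2.2.1 d (P a) (P b) (-e0) hm hn
    refine h_two d c c1 c2 e0 he0 ?_ ?_
    · rw [h3, h1, h5, hc]
    · rw [h4, h2, h6, hc, C_neg, sub_eq_add_neg]

end Pool.Agent.Q211.FF
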